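import Pool.Agent.Helper29.CY.Goals

/-!
# Project CY (MP_eaa1a7_co), packet NRA: configurations without rigid pairs
-/

set_option autoImplicit false

open Module

namespace Pool.Agent.Helper78.CY.NRA

open Pool.Agent.Helper29.CC Pool.Agent.Helper29.CY

/-- seven lines of `ℝ³` with mutual angles at least 60 degrees do not exist -/
theorem fin3 (n : ℕ) (x y z : Fin n → ℝ) (h1 : ∀ i, x i ^ 2 + y i ^ 2 + z i ^ 2 = 1)
    (h2 : ∀ i k, i ≠ k → |x i * x k + y i * y k + z i * z k| ≤ 1 / 2) : n ≤ 6 := by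
  have e1 : ∀ i k, dt ![x i, y i, z i, 0] ![x k, y k, z k, 0] =
      x i * x k + y i * y k + z i * z k := by
    intro i k
    simp [dt]
  have e2 : ∀ i, dt ![x i, y i, z i, 0] ![0, 0, 0, 1] = 0 := by
    intro i
    simp [dt]
  have e3 : dt ![(0 : ℝ), 0, 0, 1] ![0, 0, 0, 1] = 1 := by simp [dt]
  refine count n (fun i => ![x i, y i, z i, 0]) (fun _ => ![0, 0, 0, 1]) ?_ ?_ ?_ ?_
  · intro i
    rw [e1]
    linarith [h1 i]
  · intro _
    exact e3
  · intro i
    exact e2 i
  · intro i k hik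
    rw [e1, e2, e2, e3]
    have h := G_le (x i * x k + y i * y k + z i * z k) 0 0 1 (h2 i k hik) (by norm_num)
      (by norm_num) (by norm_num)
    simpa using h

section

variable {V : Type} [NormedAddCommGroup V] [InnerProductSpace ℝ V]

theorem perp1 (A B : Submodule ℝ V) [FiniteDimensional ℝ A] (hAB : A ≤ B) (h : ∃ w ∈ B, w ∉ A) :
    ∃ m ∈ B, ‖m‖ = 1 ∧ ∀ a ∈ A, inner ℝ a m = 0 := by
  obtain ⟨w, hw, hwA⟩ := h
  have h1 : w - A.starProjection w ∈ B := B.sub_mem hw (hAB (A.starProjection_apply_mem w))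
  have h2 : w - A.starProjection w ≠ 0 := by
    intro h
    rw [sub_eq_zero] at h
    exact hwA (h ▸ A.starProjection_apply_mem w)
  have h3 : ∀ a ∈ A, inner ℝ a (w - A.starProjection w) = 0 := by
    intro a ha
    rw [real_inner_comm]
    exact A.starProjection_inner_eq_zero w a ha
  have h4 : ‖w - A.starProjection w‖ ≠ 0 := norm_ne_zero_iff.2 h2
  refine ⟨‖w - A.starProjection w‖⁻¹ • (w - A.starProjection w), B.smul_mem _ h1, ?_, ?_⟩
  · rw [norm_smul, norm_inv, norm_norm, inv_mul_cancel₀ h4]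
  · intro a ha
    rw [inner_smul_right, h3 a ha, mul_zero]

theorem exists_not_mem (A B : Submodule ℝ V) [FiniteDimensional ℝ A]
    (h : finrank ℝ A < finrank ℝ B) : ∃ w ∈ B, w ∉ A := by
  by_contra hc
  push Not at hc
  have h1 : finrank ℝ B ≤ finrank ℝ A := Submodule.finrank_mono fun x hx => hc x hx
  omega

theorem fd {W : Submodule ℝ V} {k : ℕ} (h : finrank ℝ W = k + 1) : FiniteDimensional ℝ W :=
  FiniteDimensional.of_finrank_pos (by omega)

theorem span2 (e y : V) : finrank ℝ (Submodule.span ℝ {e, y} : Submodule ℝ V) ≤ 2 := by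
  classical
  have h : (Submodule.span ℝ {e, y} : Submodule ℝ V) =
      Submodule.span ℝ (({e, y} : Finset V) : Set V) := by simp
  rw [h]
  exact (finrank_span_finset_le_card _).trans Finset.card_le_two

instance fdspan2 (e y : V) : FiniteDimensional ℝ (Submodule.span ℝ {e, y} : Submodule ℝ V) :=
  FiniteDimensional.span_of_finite ℝ (Set.toFinite _)

theorem ortho3 (W : Submodule ℝ V) (hW : finrank ℝ W = 3) (e y : V) (heW : e ∈ W) (hyW : y ∈ W)
    (he : ‖e‖ = 1) (hy : ‖y‖ = 1) (hey : inner ℝ e y = 0) :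
    ∃ z ∈ W, ‖z‖ = 1 ∧ inner ℝ e z = 0 ∧ inner ℝ y z = 0 ∧
      ∀ u ∈ W, u = inner ℝ u e • e + inner ℝ u y • y + inner ℝ u z • z := by
  have := fd hW
  have hle : (Submodule.span ℝ {e, y} : Submodule ℝ V) ≤ W := by
    rw [Submodule.span_le]
    rintro v (rfl | hv)
    · exact heW
    · rw [Set.mem_singleton_iff] at hv
      rw [hv]
      exact hyW
  obtain ⟨z, hzW, hz, hzo⟩ := perp1 _ W hle (exists_not_mem _ W (by
    have := span2 e y
    omega))
  have h1 : inner ℝ e z = 0 := hzo e (Submodule.subset_span (by simp))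
  have h2 : inner ℝ y z = 0 := hzo y (Submodule.subset_span (by simp))
  have h1' : inner ℝ z e = 0 := by rw [real_inner_comm]; exact h1
  have h2' : inner ℝ z y = 0 := by rw [real_inner_comm]; exact h2
  have hye : inner ℝ y e = 0 := by rw [real_inner_comm]; exact hey
  have ho : Orthonormal ℝ ![e, y, z] := by
    refine ⟨fun i => ?_, fun i j hij => ?_⟩
    · fin_cases i
      · exact he
      · exact hy
      · exact hz
    · fin_cases i <;> fin_cases j
      all_goals first
        | exact absurd rfl hij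
        | exact hey
        | exact hye
        | exact h1
        | exact h2
        | exact h1'
        | exact h2'
  have hf : finrank ℝ (Submodule.span ℝ (Set.range ![e, y, z])) = 3 := by
    rw [finrank_span_eq_card ho.linearIndependent]
    simp
  have hle2 : Submodule.span ℝ (Set.range ![e, y, z]) ≤ W := by
    rw [Submodule.span_le]
    rintro v ⟨i, rfl⟩
    fin_cases i
    · exact heW
    · exact hyW
    · exact hzW
  have heq : Submodule.span ℝ (Set.range ![e, y, z]) = W :=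
    Submodule.eq_of_le_of_finrank_eq hle2 (by rw [hf, hW])
  refine ⟨z, hzW, hz, h1, h2, fun u hu => ?_⟩
  rw [← heq, Submodule.mem_span_range_iff_exists_fun] at hu
  obtain ⟨c, hc⟩ := hu
  rw [Fin.sum_univ_three] at hc
  have hc' : c 0 • e + c 1 • y + c 2 • z = u := hc
  have he1 : inner ℝ e e = (1 : ℝ) := by rw [real_inner_self_eq_norm_sq, he]; norm_num
  have hy1 : inner ℝ y y = (1 : ℝ) := by rw [real_inner_self_eq_norm_sq, hy]; norm_num
  have hz1 : inner ℝ z z = (1 : ℝ) := by rw [real_inner_self_eq_norm_sq, hz]; norm_num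
  have k1 : inner ℝ u e = c 0 := by
    rw [← hc', inner_add_left, inner_add_left, inner_smul_left, inner_smul_left, inner_smul_left,
      he1, hye, h1']
    simp
  have k2 : inner ℝ u y = c 1 := by
    rw [← hc', inner_add_left, inner_add_left, inner_smul_left, inner_smul_left, inner_smul_left,
      hey, hy1, h2']
    simp
  have k3 : inner ℝ u z = c 2 := by
    rw [← hc', inner_add_left, inner_add_left, inner_smul_left, inner_smul_left, inner_smul_left,
      h1, h2, hz1]
    simp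
  rw [k1, k2, k3]
  exact hc'.symm

/-- a common plane -/
theorem common (hBAS : S_BAS) (n : ℕ) (N : Fin n → Submodule ℝ V) (u : Fin n → V)
    (hC : Conf N u) (e y : V) (he : ‖e‖ = 1) (hy : ‖y‖ = 1) (hey : inner ℝ e y = 0)
    (hmem : ∀ l, e ∈ N l ∧ y ∈ N l)
    (hint : ∀ i k, N i ≠ N k → N i ⊓ N k ≤ Submodule.span ℝ {e, y}) : n ≤ 6 := by
  have hex : ∀ W : Submodule ℝ V, (finrank ℝ W = 3 ∧ e ∈ W ∧ y ∈ W) →
      ∃ z ∈ W, ‖z‖ = 1 ∧ inner ℝ e z = 0 ∧ inner ℝ y z = 0 ∧
        ∀ u ∈ W, u = inner ℝ u e • e + inner ℝ u y • y + inner ℝ u z • z :=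
    fun W hW => ortho3 W hW.1 e y hW.2.1 hW.2.2 he hy hey
  choose! Z hZ hZn hZe hZy hZu using hex
  have hN : ∀ i, finrank ℝ (N i) = 3 ∧ e ∈ N i ∧ y ∈ N i := fun i =>
    ⟨hC.dim i, (hmem i).1, (hmem i).2⟩
  have he1 : inner ℝ e e = (1 : ℝ) := by rw [real_inner_self_eq_norm_sq, he]; norm_num
  have hy1 : inner ℝ y y = (1 : ℝ) := by rw [real_inner_self_eq_norm_sq, hy]; norm_num
  have hye : inner ℝ y e = 0 := by rw [real_inner_comm]; exact hey
  have key : ∀ i k, N i = N k → inner ℝ (u i) (u k) =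
      inner ℝ (u i) e * inner ℝ (u k) e + inner ℝ (u i) y * inner ℝ (u k) y +
        inner ℝ (u i) (Z (N i)) * inner ℝ (u k) (Z (N k)) := by
    intro i k hik
    have h1 := hZu (N k) (hN k) (u k) (hC.mem k)
    conv_lhs => rw [h1]
    rw [inner_add_right, inner_add_right, inner_smul_right, inner_smul_right, inner_smul_right, hik]
    ring
  refine fin3 n (fun i => inner ℝ (u i) e) (fun i => inner ℝ (u i) y)
    (fun i => inner ℝ (u i) (Z (N i))) ?_ ?_
  · intro i
    have h1 := key i i rfl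
    rw [real_inner_self_eq_norm_sq, hC.nrm i] at h1
    nlinarith
  · intro i k hik
    obtain ⟨hhalf, -, hpi, -, -, -⟩ := hBAS n V N u hC i k hik
    by_cases h : N i = N k
    · rw [key i k h] at hhalf
      exact hhalf
    · obtain ⟨h1, h2⟩ := hpi e y he hy hey (hint i k h)
      have s1 := key i i rfl
      have s2 := key k k rfl
      rw [real_inner_self_eq_norm_sq, hC.nrm i] at s1
      rw [real_inner_self_eq_norm_sq, hC.nrm k] at s2
      rw [abs_le]
      constructor
      · nlinarith [sq_nonneg (inner ℝ (u i) (Z (N i)) + inner ℝ (u k) (Z (N k)))]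
      · nlinarith [sq_nonneg (inner ℝ (u i) (Z (N i)) - inner ℝ (u k) (Z (N k)))]

/-- expansion -/
theorem expand (u n u' n' : V) (hu : ‖u‖ = 1) (hn : ‖n‖ = 1) (hu' : ‖u'‖ = 1) (hn' : ‖n'‖ = 1)
    (hun : inner ℝ u n = 0) (hun' : inner ℝ u' n' = 0) (s r : ℝ)
    (h : 2 ≤ ‖(2 : ℝ) • u + s • n - ((2 : ℝ) • u' + r • n')‖) :
    4 ≤ 8 - 8 * inner ℝ u u' + s ^ 2 + r ^ 2 - 4 * s * inner ℝ u' n - 4 * r * inner ℝ u n' -
      2 * s * r * inner ℝ n n' := by
  have h1 : (4 : ℝ) ≤ ‖(2 : ℝ) • u + s • n - ((2 : ℝ) • u' + r • n')‖ ^ 2 := by nlinarith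
  have hnu : inner ℝ n u = 0 := by rw [real_inner_comm]; exact hun
  have hnu' : inner ℝ n' u' = 0 := by rw [real_inner_comm]; exact hun'
  have q1 : inner ℝ u' u = inner ℝ u u' := real_inner_comm _ _
  have q2 : inner ℝ n' u = inner ℝ u n' := real_inner_comm _ _
  have q3 : inner ℝ n u' = inner ℝ u' n := real_inner_comm _ _
  have q4 : inner ℝ n' n = inner ℝ n n' := real_inner_comm _ _
  rw [← real_inner_self_eq_norm_sq] at h1
  simp only [inner_sub_left, inner_sub_right, inner_add_left, inner_add_right, inner_smul_left,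
    inner_smul_right, conj_trivial, real_inner_self_eq_norm_sq, hu, hn, hu', hn', hun, hun', hnu,
    hnu', q1, q2, q3, q4] at h1
  linarith

/-- a common four-space -/
theorem four (hBAS : S_BAS) (n : ℕ) (N : Fin n → Submodule ℝ V) (u : Fin n → V)
    (hC : Conf N u) (W : Submodule ℝ V) (hW : finrank ℝ W = 4) (hle : ∀ l, N l ≤ W) : n ≤ 6 := by
  have := fd hW
  -- the normals
  have hm : ∀ i, ∃ m ∈ W, ‖m‖ = 1 ∧ ∀ a ∈ N i, inner ℝ a m = 0 := by
    intro i
    have := fd (hC.dim i)
    exact perp1 _ W (hle i) (exists_not_mem _ W (by rw [hC.dim i, hW]; norm_num))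
  choose m hmW hmn hmo using hm
  -- coordinates
  let b : OrthonormalBasis (Fin 4) ℝ W := (stdOrthonormalBasis ℝ W).reindex (finCongr hW)
  let c : V → Fin 4 → ℝ := fun v i => inner ℝ ((b i : W) : V) v
  have hc : ∀ v ∈ W, ∀ w ∈ W, dt (c v) (c w) = inner ℝ v w := by
    intro v hv w hw
    have h1 := b.sum_inner_mul_inner (⟨v, hv⟩ : W) (⟨w, hw⟩ : W)
    rw [Fin.sum_univ_four] at h1
    simp only [Submodule.coe_inner] at h1
    rw [← h1]
    simp only [dt, c]
    rw [real_inner_comm v, real_inner_comm v, real_inner_comm v, real_inner_comm v]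
  have hun : ∀ i, inner ℝ (u i) (m i) = 0 := fun i => hmo i _ (hC.mem i)
  have huW : ∀ i, u i ∈ W := fun i => hle i (hC.mem i)
  refine count n (fun i => c (u i)) (fun i => c (m i)) (fun i => ?_) (fun i => ?_) (fun i => ?_) ?_
  · rw [hc _ (huW i) _ (huW i), real_inner_self_eq_norm_sq, hC.nrm i]; norm_num
  · rw [hc _ (hmW i) _ (hmW i), real_inner_self_eq_norm_sq, hmn i]; norm_num
  · rw [hc _ (huW i) _ (hmW i), hun i]
  intro i j hij
  have k1 : ∀ s r : ℝ, 4 ≤ 8 - 8 * inner ℝ (u i) (u j) + s ^ 2 + r ^ 2 -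
      4 * s * inner ℝ (u j) (m i) - 4 * r * inner ℝ (u i) (m j) -
      2 * s * r * inner ℝ (m i) (m j) := by
    intro s r
    refine expand _ _ _ _ (hC.nrm i) (hmn i) (hC.nrm j) (hmn j) (hun i) (hun j) s r ?_
    obtain ⟨f, ⟨hfi, hfj⟩, hf, hf1⟩ := hC.sep i j hij
    have g1 : inner ℝ (m i) f = 0 := by rw [real_inner_comm]; exact hmo i f hfi
    have g2 : inner ℝ (m j) f = 0 := by rw [real_inner_comm]; exact hmo j f hfj
    have h3 := abs_real_inner_le_norm ((2 : ℝ) • u i + s • m i - ((2 : ℝ) • u j + r • m j)) f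
    have h4 : inner ℝ ((2 : ℝ) • u i + s • m i - ((2 : ℝ) • u j + r • m j)) f =
        2 * inner ℝ (u i - u j) f := by
      simp only [inner_sub_left, inner_add_left, inner_smul_left, conj_trivial, g1, g2]
      ring
    rw [h4, hf, mul_one, abs_mul, abs_two] at h3
    linarith
  have k2 : ∀ s r : ℝ, 4 ≤ 8 - 8 * (-inner ℝ (u i) (u j)) + s ^ 2 + r ^ 2 -
      4 * s * (-inner ℝ (u j) (m i)) - 4 * r * (-inner ℝ (u i) (m j)) -
      2 * s * r * (-inner ℝ (m i) (m j)) := by
    intro s r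
    have h5 := expand (u i) (m i) (-u j) (-m j) (hC.nrm i) (hmn i) (by rw [norm_neg, hC.nrm j])
      (by rw [norm_neg, hmn j]) (hun i) (by rw [inner_neg_neg, hun j]) s r (by
        obtain ⟨f, ⟨hfi, hfj⟩, hf, hf1⟩ := hC.sep' i j hij
        have g1 : inner ℝ (m i) f = 0 := by rw [real_inner_comm]; exact hmo i f hfi
        have g2 : inner ℝ (m j) f = 0 := by rw [real_inner_comm]; exact hmo j f hfj
        have h3 := abs_real_inner_le_norm
          ((2 : ℝ) • u i + s • m i - ((2 : ℝ) • (-u j) + r • (-m j))) f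
        have h4 : inner ℝ ((2 : ℝ) • u i + s • m i - ((2 : ℝ) • (-u j) + r • (-m j))) f =
            2 * inner ℝ (u i + u j) f := by
          simp only [inner_sub_left, inner_add_left, inner_smul_left, inner_neg_left, conj_trivial,
            g1, g2]
          ring
        rw [h4, hf, mul_one, abs_mul, abs_two] at h3
        linarith)
    simp only [inner_neg_right, inner_neg_left] at h5
    exact h5
  have b1 : inner ℝ (u i) (m j) ^ 2 + inner ℝ (m i) (m j) ^ 2 ≤ 1 := by
    have := bessel (c (u i)) (c (m i)) (c (m j))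
      (by rw [hc _ (huW i) _ (huW i), real_inner_self_eq_norm_sq, hC.nrm i]; norm_num)
      (by rw [hc _ (hmW i) _ (hmW i), real_inner_self_eq_norm_sq, hmn i]; norm_num)
      (by rw [hc _ (huW i) _ (hmW i), hun i])
      (by rw [hc _ (hmW j) _ (hmW j), real_inner_self_eq_norm_sq, hmn j]; norm_num)
    rwa [hc _ (huW i) _ (hmW j), hc _ (hmW i) _ (hmW j)] at this
  have b2 : inner ℝ (u j) (m i) ^ 2 + inner ℝ (m i) (m j) ^ 2 ≤ 1 := by
    have := bessel (c (u j)) (c (m j)) (c (m i))
      (by rw [hc _ (huW j) _ (huW j), real_inner_self_eq_norm_sq, hC.nrm j]; norm_num)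
      (by rw [hc _ (hmW j) _ (hmW j), real_inner_self_eq_norm_sq, hmn j]; norm_num)
      (by rw [hc _ (huW j) _ (hmW j), hun j])
      (by rw [hc _ (hmW i) _ (hmW i), real_inner_self_eq_norm_sq, hmn i]; norm_num)
    rwa [hc _ (huW j) _ (hmW i), hc _ (hmW j) _ (hmW i), real_inner_comm (m i) (m j)] at this
  have a1 := pair_alg _ _ _ _ b1 b2 k1
  have a2 := pair_alg (-inner ℝ (u i) (u j)) (-inner ℝ (u i) (m j)) (-inner ℝ (u j) (m i))
    (-inner ℝ (m i) (m j)) (by rw [neg_sq, neg_sq]; exact b1) (by rw [neg_sq, neg_sq]; exact b2) k2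
  have t1 := k1 0 0
  have t2 := k2 0 0
  show G (dt (c (u i)) (c (u j))) (dt (c (u i)) (c (m j)) ^ 2 + dt (c (u j)) (c (m i)) ^ 2)
      (dt (c (u i)) (c (m j)) * dt (c (u j)) (c (m i)) * dt (c (m i)) (c (m j)))
      (dt (c (m i)) (c (m j)) ^ 2) ≤ 3 / 1000
  rw [hc _ (huW i) _ (huW j), hc _ (huW i) _ (hmW j), hc _ (huW j) _ (hmW i),
    hc _ (hmW i) _ (hmW j)]
  generalize inner ℝ (u i) (u j) = t at *
  generalize inner ℝ (u i) (m j) = a at *
  generalize inner ℝ (u j) (m i) = b' at *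
  generalize inner ℝ (m i) (m j) = c' at *
  refine G_le t a b' c' (abs_le.2 ⟨by linarith, by linarith⟩) (by nlinarith [sq_nonneg a])
    (by linarith) ?_
  have e5 : -a * -b' * -c' = -(a * b' * c') := by ring
  rw [e5, neg_sq, neg_sq, neg_sq] at a2
  linarith

end

theorem t (hLA : S_LA) (hBAS : S_BAS) : S_NRA := by
  intro n V _ _ N u hC hNR
  obtain ⟨la1, la2, la3, la4⟩ := hLA
  have hfd : ∀ i, FiniteDimensional ℝ (N i) := fun i => fd (hC.dim i)
  rcases Nat.eq_zero_or_pos n with h0 | h0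
  · omega
  by_cases hall : ∀ i k, N i = N k
  · -- all normal spaces are equal
    let o : Fin n := ⟨0, h0⟩
    have he := hC.nrm o
    have hle : (Submodule.span ℝ {u o, u o} : Submodule ℝ V) ≤ N o := by
      rw [Submodule.span_le]
      rintro v (rfl | hv)
      · exact hC.mem o
      · rw [Set.mem_singleton_iff] at hv
        rw [hv]
        exact hC.mem o
    obtain ⟨y, hyN, hy, hyo⟩ := perp1 _ (N o) hle (exists_not_mem _ (N o) (by
      have h1 := span2 (u o) (u o)
      have h2 := hC.dim o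
      omega))
    refine common hBAS n N u hC (u o) y he hy (hyo _ (Submodule.subset_span (by simp)))
      (fun l => ⟨?_, ?_⟩) (fun i k h => absurd (hall i k) h)
    · rw [hall l o]; exact hC.mem o
    · rw [hall l o]; exact hyN
  · push Not at hall
    obtain ⟨i, k, hik⟩ := hall
    have hfP : finrank ℝ ↥(N i ⊓ N k) = 2 :=
      le_antisymm (la2 V (N i) (N k) (hC.dim i) (hC.dim k) hik) (hNR i k)
    have hfW : finrank ℝ ↥(N i ⊔ N k) = 4 := by
      have h1 := Submodule.finrank_sup_add_finrank_inf_eq (N i) (N k)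
      rw [hC.dim i, hC.dim k, hfP] at h1
      omega
    have hPfd : FiniteDimensional ℝ ↥(N i ⊓ N k) := fd hfP
    by_cases hP : ∀ l, N i ⊓ N k ≤ N l
    · obtain ⟨e, heP, he⟩ := la1 V (N i) (N i ⊓ N k) (N i ⊓ N k) (hC.dim i) inf_le_left inf_le_left
        hfP.ge hfP.ge
      have heP' : e ∈ N i ⊓ N k := heP.1
      obtain ⟨y, hyP, hy, hey, hsp⟩ := la3 V (N i ⊓ N k) e hfP heP' he
      refine common hBAS n N u hC e y he hy hey (fun l => ⟨hP l heP', hP l hyP⟩) ?_
      intro a b hab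
      have hfQ : finrank ℝ ↥(N a ⊓ N b) ≤ 2 := la2 V (N a) (N b) (hC.dim a) (hC.dim b) hab
      have := hfd a
      have heq : N i ⊓ N k = N a ⊓ N b :=
        Submodule.eq_of_le_of_finrank_le (le_inf (hP a) (hP b)) (by rw [hfP]; exact hfQ)
      rw [← heq]
      exact hsp
    · push Not at hP
      obtain ⟨l3, hl3⟩ := hP
      have hsm : ∀ l, ¬ N i ⊓ N k ≤ N l → finrank ℝ ↥((N i ⊓ N k) ⊓ N l) ≤ 1 := by
        intro l hl
        by_contra hc
        apply hl
        have h1 : (N i ⊓ N k) ⊓ N l = N i ⊓ N k :=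
          Submodule.eq_of_le_of_finrank_le inf_le_left (by rw [hfP]; omega)
        rw [← h1]
        exact inf_le_right
      have hout : ∀ l, ¬ N i ⊓ N k ≤ N l → N l ≤ N i ⊔ N k := by
        intro l hl
        have h1 := la4 V (N l) (N l ⊓ N i) (N l ⊓ N k) (hC.dim l) inf_le_left inf_le_left
          (hNR l i) (hNR l k) (by
            have e1 : (N l ⊓ N i) ⊓ (N l ⊓ N k) = (N i ⊓ N k) ⊓ N l := by
              rw [inf_inf_inf_comm, inf_idem, inf_comm]
            rw [e1]
            exact hsm l hl)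
        exact h1.trans (sup_le_sup inf_le_right inf_le_right)
      refine four hBAS n N u hC (N i ⊔ N k) hfW fun l => ?_
      by_cases hl : N i ⊓ N k ≤ N l
      · have h1 := la4 V (N l) (N i ⊓ N k) (N l ⊓ N l3) (hC.dim l) hl inf_le_left
          hfP.ge (hNR l l3) (by
            have hle : (N i ⊓ N k) ⊓ (N l ⊓ N l3) ≤ (N i ⊓ N k) ⊓ N l3 :=
              inf_le_inf le_rfl inf_le_right
            have : FiniteDimensional ℝ ↥((N i ⊓ N k) ⊓ N l3) :=
              Submodule.finiteDimensional_inf_left _ _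
            exact (Submodule.finrank_mono hle).trans (hsm l3 hl3))
        refine h1.trans (sup_le ?_ ?_)
        · exact inf_le_left.trans le_sup_left
        · exact inf_le_right.trans (hout l3 hl3)
      · exact hout l hl

end Pool.Agent.Helper78.CY.NRA
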